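import Mathlib
import Pool.Agent.Helper37.CircMix.Defs
import Pool.Agent.Helper37.CircMix.Final

/-!
# A non-bipartite graph with equal circular mixing threshold and circular chromatic number

The graph is the complement of the theta graph `θ(2,3,5)` (an `8`-cycle `0, ..., 7` together with a
vertex `8` joined to `0` and `3`); it has nine vertices.

* Every proper `5`-colouring has a `5`-cycle whose colours are `0, 1, 2, 3, 4` in this order, hence
  there is no `(k, q)`-colouring with `k / q < 5`, and the circular chromatic number is `5`.
* For `k / q > 5` every `(k, q)`-colouring can be moved to a scaled ordinary colouring with
  `m = k / q` (integer part) colours, because `2 m > 9`; the graph is `m`-mixing for all `m ≥ 5`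
  (a finite check of matchings of the theta graph), and the scaled colourings can be rotated as
  there is slack.
* The theta graph has no Hamiltonian cycle and maximum degree `3`, hence the `(10, 2)`-colourings
  which have a `5`-cycle with colours `0, 2, 4, 6, 8` are closed under recolouring steps and the
  graph is not `(10, 2)`-mixing.
-/

set_option autoImplicit false

namespace Pool.Agent.Results.MP_3baeb2_co.MixingEqCircular

open Pool.Agent.Helper37.CircMix

/-- There is a graph on nine vertices that is not bipartite and whose circular chromatic number and
circular mixing threshold are both `5`. -/
theorem result : ∃ G : SimpleGraph (Fin 9), ¬ G.Colorable 2 ∧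
    circularChromaticNumber G = 5 ∧ circularMixingThreshold G = 5 :=
  ⟨G9, not_two_colorable, circularChromaticNumber_G9, circularMixingThreshold_G9⟩

end Pool.Agent.Results.MP_3baeb2_co.MixingEqCircular
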